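import Pool.Agent.Lib_helper53.PIX.Defs

/-!
# Block MD: an irrationality measure of `π` from the estimates of the iterated convolutions
-/

set_option autoImplicit false

namespace Pool.Agent.Lib_helper53.PIX

theorem md_pow (n l : ℕ) (hl : l ≤ n) {x y : ℝ} (hx : |x| ≤ 5) (hy : |y| ≤ 5) :
    |x ^ l - y ^ l| ≤ (n : ℝ) * 5 ^ n * |x - y| := by
  have h := abs_pow_sub_pow_le x y l
  have h1 : max |x| |y| ^ (l - 1) ≤ (5 : ℝ) ^ n :=
    (pow_le_pow_left₀ (le_trans (abs_nonneg x) (le_max_left _ _)) (max_le hx hy) _).trans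
      (pow_le_pow_right₀ (by norm_num) (by omega))
  have h2 : (l : ℝ) ≤ n := by exact_mod_cast hl
  calc |x ^ l - y ^ l| ≤ |x - y| * l * max |x| |y| ^ (l - 1) := h
    _ ≤ |x - y| * n * 5 ^ n := by gcongr
    _ = _ := by ring

theorem md_diff (n : ℕ) (t : ℕ → ℤ) {x y : ℝ} (hx : |x| ≤ 5) (hy : |y| ≤ 5) :
    |∑ l ∈ Finset.range (n + 1), (t l : ℝ) * x ^ l - ∑ l ∈ Finset.range (n + 1), (t l : ℝ) * y ^ l|
      ≤ (∑ l ∈ Finset.range (n + 1), |(t l : ℝ)|) * ((n : ℝ) * 5 ^ n * |x - y|) := by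
  rw [← Finset.sum_sub_distrib, Finset.sum_mul]
  refine (Finset.abs_sum_le_sum_abs _ _).trans (Finset.sum_le_sum fun l hl => ?_)
  rw [← mul_sub, abs_mul]
  refine mul_le_mul_of_nonneg_left (md_pow n l ?_ hx hy) (abs_nonneg _)
  exact Nat.lt_succ_iff.mp (Finset.mem_range.mp hl)

theorem md_int (n : ℕ) (t : ℕ → ℤ) (P : ℤ) (d : ℕ) (hd : 1 ≤ d) : ∃ z : ℤ,
    (d : ℝ) ^ n * ∑ l ∈ Finset.range (n + 1), (t l : ℝ) * ((P : ℝ) / d) ^ l = z := by
  have hd' : (d : ℝ) ≠ 0 := by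
    have : (1 : ℝ) ≤ d := by exact_mod_cast hd
    positivity
  refine ⟨∑ l ∈ Finset.range (n + 1), t l * P ^ l * (d : ℤ) ^ (n - l), ?_⟩
  push_cast
  rw [Finset.mul_sum]
  refine Finset.sum_congr rfl fun l hl => ?_
  have hl' : l ≤ n := Nat.lt_succ_iff.mp (Finset.mem_range.mp hl)
  have e : (d : ℝ) ^ n = (d : ℝ) ^ l * (d : ℝ) ^ (n - l) := by
    rw [← pow_add, Nat.add_sub_cancel' hl']
  rw [div_pow, e]
  have h : (d : ℝ) ^ l ≠ 0 := pow_ne_zero _ hd'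
  field_simp

theorem md_exp (W : ℕ) (hW : 1 ≤ W) : ∃ m : ℕ, W ≤ 4 ^ m ∧ 4 ^ m ≤ 4 * W := by
  obtain ⟨n, h1, h2⟩ := exists_nat_pow_near hW (by norm_num : 1 < 4)
  refine ⟨n + 1, h2.le, ?_⟩
  rw [pow_succ, mul_comm]
  exact Nat.mul_le_mul_left 4 h1

/-- The measure from a sequence of linear forms in the powers of `π`. -/
theorem md_core (n A B G E F : ℕ) (hA : 1 ≤ A) (hG : 1 ≤ G) (hE : 1 ≤ E) (hF : 1 ≤ F)
    (H : ∀ m : ℕ, ∃ t : ℕ → ℤ,
      ((4 : ℝ) ^ m * ∑ l ∈ Finset.range (n + 1), (t l : ℝ) * Real.pi ^ l) ≤ A ∧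
      (1 : ℝ) ≤ (E : ℝ) * (F : ℝ) ^ m * ∑ l ∈ Finset.range (n + 1), (t l : ℝ) * Real.pi ^ l ∧
      ∑ l ∈ Finset.range (n + 1), |(t l : ℝ)| ≤ (B : ℝ) * (G : ℝ) ^ m) :
    ∃ μ M : ℕ, ∀ (P : ℤ) (d : ℕ), 1 ≤ d →
      (1 : ℝ) ≤ (M : ℝ) * (d : ℝ) ^ μ * |(d : ℝ) * Real.pi - (P : ℝ)| := by
  set e := F * G with he
  set Q := B * (n * 5 ^ n) with hQ
  refine ⟨n + n * e, 2 * Q * E * (8 * A) ^ e + 1, fun P d hd => ?_⟩
  set δ : ℝ := |(d : ℝ) * Real.pi - (P : ℝ)| with hδ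
  have hδ0 : 0 ≤ δ := abs_nonneg _
  have hd1 : (1 : ℝ) ≤ d := by exact_mod_cast hd
  have hd0 : (0 : ℝ) < d := by linarith
  have hA1 : (1 : ℝ) ≤ A := by exact_mod_cast hA
  have hG1 : (1 : ℝ) ≤ G := by exact_mod_cast hG
  have hE1 : (1 : ℝ) ≤ E := by exact_mod_cast hE
  have hF1 : (1 : ℝ) ≤ F := by exact_mod_cast hF
  have hQ0 : (0 : ℝ) ≤ Q := Nat.cast_nonneg _
  have hdm : (1 : ℝ) ≤ (d : ℝ) ^ (n + n * e) := one_le_pow₀ hd1
  have hM : (2 * Q * E * (8 * A) ^ e : ℝ) * (d : ℝ) ^ (n + n * e) * δ ≤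
      ((2 * Q * E * (8 * A) ^ e + 1 : ℕ) : ℝ) * (d : ℝ) ^ (n + n * e) * δ := by
    push_cast
    have h1 : (0 : ℝ) ≤ (d : ℝ) ^ (n + n * e) * δ := by positivity
    nlinarith
  by_cases h1 : 1 ≤ δ
  · have h2 : (1 : ℝ) ≤ ((2 * Q * E * (8 * A) ^ e + 1 : ℕ) : ℝ) := by
      push_cast
      have : (0 : ℝ) ≤ 2 * Q * E * (8 * A) ^ e := by positivity
      linarith
    have h3 : (1 : ℝ) ≤ ((2 * Q * E * (8 * A) ^ e + 1 : ℕ) : ℝ) * (d : ℝ) ^ (n + n * e) :=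
      one_le_mul_of_one_le_of_one_le h2 hdm
    exact one_le_mul_of_one_le_of_one_le h3 h1
  · push Not at h1
    refine le_trans ?_ hM
    have hpi3 : (3 : ℝ) < Real.pi := Real.pi_gt_three
    have hpi4 : Real.pi ≤ 4 := Real.pi_le_four
    have hpi : |Real.pi| ≤ 5 := by
      rw [abs_of_pos Real.pi_pos]
      linarith
    have hPd : |(P : ℝ) / d| ≤ 5 := by
      rw [abs_div, abs_of_pos hd0, div_le_iff₀ hd0]
      have h2 : |(P : ℝ)| ≤ |(d : ℝ) * Real.pi| + δ := by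
        have h3 : (P : ℝ) = (d : ℝ) * Real.pi - ((d : ℝ) * Real.pi - P) := by ring
        calc |(P : ℝ)| = |(d : ℝ) * Real.pi - ((d : ℝ) * Real.pi - P)| := by rw [← h3]
          _ ≤ |(d : ℝ) * Real.pi| + |(d : ℝ) * Real.pi - P| := abs_sub _ _
      rw [abs_of_pos (by positivity : (0 : ℝ) < (d : ℝ) * Real.pi)] at h2
      nlinarith
    have hdiff : |Real.pi - (P : ℝ) / d| ≤ δ := by
      have h2 : Real.pi - (P : ℝ) / d = ((d : ℝ) * Real.pi - P) / d := by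
        field_simp
      rw [h2, abs_div, abs_of_pos hd0]
      exact div_le_self hδ0 hd1
    obtain ⟨m, hm1, hm2⟩ := md_exp (2 * A * d ^ n) (Nat.mul_pos (by omega) (pow_pos (by omega) _))
    obtain ⟨t, ht1, ht2, ht3⟩ := H m
    set S1 := ∑ l ∈ Finset.range (n + 1), (t l : ℝ) * Real.pi ^ l with hS1
    set S2 := ∑ l ∈ Finset.range (n + 1), (t l : ℝ) * ((P : ℝ) / d) ^ l with hS2
    have hm1' : (2 * A * (d : ℝ) ^ n : ℝ) ≤ 4 ^ m := by exact_mod_cast hm1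
    have hm2' : ((4 : ℝ) ^ m) ≤ 4 * (2 * A * (d : ℝ) ^ n) := by exact_mod_cast hm2
    have hD : |S1 - S2| ≤ (Q : ℝ) * (G : ℝ) ^ m * δ := by
      refine (md_diff n t hpi hPd).trans ?_
      have h2 : (n : ℝ) * 5 ^ n * |Real.pi - (P : ℝ) / d| ≤ (n : ℝ) * 5 ^ n * δ :=
        mul_le_mul_of_nonneg_left hdiff (by positivity)
      have h3 : (0 : ℝ) ≤ (n : ℝ) * 5 ^ n * |Real.pi - (P : ℝ) / d| := by positivity
      have h4 : (0 : ℝ) ≤ (B : ℝ) * (G : ℝ) ^ m := by positivity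
      calc _ ≤ ((B : ℝ) * (G : ℝ) ^ m) * ((n : ℝ) * 5 ^ n * δ) :=
            mul_le_mul ht3 h2 h3 h4
        _ = _ := by
            rw [hQ]
            push_cast
            ring
    -- powers
    have hH : ((F : ℝ) * G) ^ m ≤ (8 * A) ^ e * (d : ℝ) ^ (n * e) := by
      have h2 : F * G < 4 ^ e := Nat.lt_pow_self (by norm_num)
      have h3 : (F : ℝ) * G ≤ 4 ^ e := by exact_mod_cast h2.le
      calc ((F : ℝ) * G) ^ m ≤ ((4 : ℝ) ^ e) ^ m := pow_le_pow_left₀ (by positivity) h3 m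
        _ = ((4 : ℝ) ^ m) ^ e := by rw [← pow_mul, ← pow_mul, mul_comm]
        _ ≤ (4 * (2 * A * (d : ℝ) ^ n)) ^ e := pow_le_pow_left₀ (by positivity) hm2' e
        _ = _ := by
            rw [pow_mul (d : ℝ) n e, ← mul_pow]
            congr 1
            ring
    have hGm : (G : ℝ) ^ m ≤ ((F : ℝ) * G) ^ m := by
      refine pow_le_pow_left₀ (by positivity) ?_ m
      nlinarith
    have hS1pos : 0 < S1 := by
      by_contra hneg
      push Not at hneg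
      have h2 : (E : ℝ) * (F : ℝ) ^ m * S1 ≤ 0 :=
        mul_nonpos_of_nonneg_of_nonpos (by positivity) hneg
      linarith
    obtain ⟨z, hz⟩ := md_int n t P d hd
    rw [← hS2] at hz
    have hdn : (1 : ℝ) ≤ (d : ℝ) ^ n := one_le_pow₀ hd1
    by_cases hz0 : z = 0
    · rw [hz0, Int.cast_zero] at hz
      have hS20 : S2 = 0 := by
        rcases mul_eq_zero.mp hz with h2 | h2
        · exact absurd h2 (by positivity)
        · exact h2
      rw [hS20, sub_zero, abs_of_pos hS1pos] at hD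
      calc (1 : ℝ) ≤ (E : ℝ) * (F : ℝ) ^ m * S1 := ht2
        _ ≤ (E : ℝ) * (F : ℝ) ^ m * ((Q : ℝ) * (G : ℝ) ^ m * δ) :=
            mul_le_mul_of_nonneg_left hD (by positivity)
        _ = (Q : ℝ) * E * δ * ((F : ℝ) * G) ^ m := by
            rw [mul_pow]
            ring
        _ ≤ (Q : ℝ) * E * δ * ((8 * A) ^ e * (d : ℝ) ^ (n * e)) :=
            mul_le_mul_of_nonneg_left hH (by positivity)
        _ ≤ (2 * ((Q : ℝ) * E * δ)) * ((8 * A) ^ e * (d : ℝ) ^ (n * e) * (d : ℝ) ^ n) := by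
            have h2 : (0 : ℝ) ≤ (Q : ℝ) * E * δ := by positivity
            have h3 : (0 : ℝ) ≤ (8 * A) ^ e * (d : ℝ) ^ (n * e) := by positivity
            have h4 : (8 * A) ^ e * (d : ℝ) ^ (n * e) ≤
                (8 * A) ^ e * (d : ℝ) ^ (n * e) * (d : ℝ) ^ n := le_mul_of_one_le_right h3 hdn
            have h5 : (Q : ℝ) * E * δ ≤ 2 * ((Q : ℝ) * E * δ) := by linarith
            exact mul_le_mul h5 h4 h3 (by positivity)
        _ = _ := by
            rw [pow_add]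
            ring
    · have hz1 : (1 : ℝ) ≤ |(z : ℝ)| := by
        have h2 : 1 ≤ |z| := Int.one_le_abs hz0
        exact_mod_cast h2
      rw [← hz, abs_mul, abs_of_pos (by positivity : (0 : ℝ) < (d : ℝ) ^ n)] at hz1
      have h2 : |S2| ≤ S1 + |S1 - S2| := by
        have h3 : S2 = S1 - (S1 - S2) := by ring
        calc |S2| = |S1 - (S1 - S2)| := by rw [← h3]
          _ ≤ |S1| + |S1 - S2| := abs_sub _ _
          _ = _ := by rw [abs_of_pos hS1pos]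
      have h3 : (d : ℝ) ^ n * S1 ≤ 1 / 2 := by
        have h4 : 2 * A * (d : ℝ) ^ n * S1 ≤ 4 ^ m * S1 :=
          mul_le_mul_of_nonneg_right hm1' hS1pos.le
        have h5 : 2 * A * (d : ℝ) ^ n * S1 ≤ A := h4.trans ht1
        have h6 : (A : ℝ) * (2 * ((d : ℝ) ^ n * S1)) ≤ A * 1 := by linarith
        have h7 := le_of_mul_le_mul_left h6 (by linarith : (0 : ℝ) < A)
        linarith
      have h4 : (d : ℝ) ^ n * |S2| ≤ 1 / 2 + (d : ℝ) ^ n * ((Q : ℝ) * (G : ℝ) ^ m * δ) := by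
        calc (d : ℝ) ^ n * |S2| ≤ (d : ℝ) ^ n * (S1 + |S1 - S2|) :=
              mul_le_mul_of_nonneg_left h2 (by positivity)
          _ = (d : ℝ) ^ n * S1 + (d : ℝ) ^ n * |S1 - S2| := by ring
          _ ≤ _ := add_le_add h3 (mul_le_mul_of_nonneg_left hD (by positivity))
      have h5 : (1 : ℝ) ≤ 2 * ((d : ℝ) ^ n * ((Q : ℝ) * (G : ℝ) ^ m * δ)) := by linarith
      calc (1 : ℝ) ≤ 2 * ((d : ℝ) ^ n * ((Q : ℝ) * (G : ℝ) ^ m * δ)) := h5
        _ = (2 * Q * δ * (d : ℝ) ^ n) * (G : ℝ) ^ m := by ring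
        _ ≤ (2 * Q * δ * (d : ℝ) ^ n) * ((8 * A) ^ e * (d : ℝ) ^ (n * e)) :=
            mul_le_mul_of_nonneg_left (hGm.trans hH) (by positivity)
        _ ≤ (2 * Q * δ * (d : ℝ) ^ n) * ((8 * A) ^ e * (d : ℝ) ^ (n * e)) * E :=
            le_mul_of_one_le_right (by positivity) hE1
        _ = _ := by
            rw [pow_add]
            ring

/-- Block MD with the four other blocks as hypotheses. -/
theorem pi_measure_of
    (h1 : ∀ m n L : ℕ, (∀ k, 1 ≤ k → k ≤ 2 * m → k ∣ L) →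
      ∃ t : ℕ → ℤ, ((n.factorial : ℝ) * (L : ℝ) ^ n * conv m n Real.pi =
        ∑ l ∈ Finset.range (n + 1), (t l : ℝ) * Real.pi ^ l) ∧
      ∑ l ∈ Finset.range (n + 1), |(t l : ℝ)| ≤
        (n.factorial : ℝ) * (L : ℝ) ^ n * (((4 : ℝ) ^ m) ^ (n + 1) * ((n + 1).factorial : ℝ)))
    (h2 : ∀ m n : ℕ, conv m n Real.pi ≤
      Real.pi ^ n * (Real.pi / (n + 1)) ^ (2 * m * (n + 1)))
    (h3 : ∀ m n : ℕ, (Real.pi / 4 ^ n) ^ n * (2 / 4 ^ n) ^ (2 * m * (n + 1)) ≤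
      conv m n Real.pi)
    (h4 : ∃ K : ℕ, 1 ≤ K ∧ ∀ N : ℕ, ∃ L : ℕ, 1 ≤ L ∧ L ≤ K ^ N ∧
      ∀ k, 1 ≤ k → k ≤ N → k ∣ L) :
    ∃ μ M : ℕ, ∀ (P : ℤ) (d : ℕ), 1 ≤ d →
      (1 : ℝ) ≤ (M : ℝ) * (d : ℝ) ^ μ * |(d : ℝ) * Real.pi - (P : ℝ)| := by
  obtain ⟨K, hK, hL⟩ := h4
  obtain ⟨n, hn⟩ : ∃ n : ℕ, n + 1 = 8 * K := ⟨8 * K - 1, by omega⟩
  have hK1 : (1 : ℝ) ≤ K := by exact_mod_cast hK
  have hK0 : (0 : ℝ) < K := by linarith
  have hn' : ((n : ℝ) + 1) = 8 * K := by exact_mod_cast hn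
  have hpi3 : (3 : ℝ) < Real.pi := Real.pi_gt_three
  have hpi4 : Real.pi ≤ 4 := Real.pi_le_four
  have hf1 : (1 : ℝ) ≤ (n.factorial : ℝ) := by exact_mod_cast Nat.one_le_iff_ne_zero.mpr n.factorial_ne_zero
  refine md_core n (n.factorial * 4 ^ n) (n.factorial * (n + 1).factorial)
    (K ^ (2 * n) * 4 ^ (n + 1)) ((4 ^ n) ^ n) ((4 ^ n) ^ (2 * (n + 1)))
    (Nat.mul_pos n.factorial_pos (by positivity)) (Nat.mul_pos (by positivity) (by positivity))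
    (Nat.one_le_pow _ _ (by positivity)) (Nat.one_le_pow _ _ (by positivity)) fun m => ?_
  obtain ⟨L, hL1, hL2, hL3⟩ := hL (2 * m)
  obtain ⟨t, ht1, ht2⟩ := h1 m n L hL3
  have hL1' : (1 : ℝ) ≤ L := by exact_mod_cast hL1
  have hL2' : (L : ℝ) ≤ (K : ℝ) ^ (2 * m) := by exact_mod_cast hL2
  have hLn : (L : ℝ) ^ n ≤ ((K : ℝ) ^ (2 * m)) ^ n := pow_le_pow_left₀ (by positivity) hL2' n
  have hLn1 : (1 : ℝ) ≤ (L : ℝ) ^ n := one_le_pow₀ hL1'
  have hge := h3 m n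
  have hlow : (0 : ℝ) < (Real.pi / 4 ^ n) ^ n * (2 / 4 ^ n) ^ (2 * m * (n + 1)) := by
    have := Real.pi_pos
    positivity
  have hc0 : 0 < conv m n Real.pi := lt_of_lt_of_le hlow hge
  refine ⟨t, ?_, ?_, ?_⟩
  · rw [← ht1]
    have hr : (K : ℝ) ^ n * (Real.pi / (n + 1)) ^ (n + 1) ≤ 1 / 2 := by
      have e1 : Real.pi / ((n : ℝ) + 1) ≤ 1 / (2 * K) := by
        rw [hn', div_le_div_iff₀ (by positivity) (by positivity)]
        nlinarith
      have e2 : (Real.pi / ((n : ℝ) + 1)) ^ (n + 1) ≤ (1 / (2 * K)) ^ (n + 1) :=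
        pow_le_pow_left₀ (by positivity) e1 _
      have e3 : (K : ℝ) ^ n * (1 / (2 * K)) ^ (n + 1) = (1 / 2) ^ (n + 1) / K := by
        rw [div_pow, mul_pow, one_pow, div_pow, one_pow, pow_succ (K : ℝ) n]
        field_simp
      have e4 : ((1 : ℝ) / 2) ^ (n + 1) ≤ 1 / 2 := by
        have := pow_le_pow_of_le_one (by norm_num : (0 : ℝ) ≤ 1 / 2) (by norm_num)
          (by omega : 1 ≤ n + 1)
        rwa [pow_one] at this
      calc (K : ℝ) ^ n * (Real.pi / (n + 1)) ^ (n + 1) ≤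
            (K : ℝ) ^ n * (1 / (2 * K)) ^ (n + 1) := mul_le_mul_of_nonneg_left e2 (by positivity)
        _ = (1 / 2) ^ (n + 1) / K := e3
        _ ≤ (1 / 2) ^ (n + 1) := div_le_self (by positivity) hK1
        _ ≤ 1 / 2 := e4
    have hr' : ((K : ℝ) ^ (2 * m)) ^ n * (Real.pi / (n + 1)) ^ (2 * m * (n + 1)) ≤
        (1 / 4) ^ m := by
      have e1 : ((K : ℝ) ^ (2 * m)) ^ n * (Real.pi / (n + 1)) ^ (2 * m * (n + 1)) =
          ((K : ℝ) ^ n * (Real.pi / (n + 1)) ^ (n + 1)) ^ (2 * m) := by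
        rw [mul_pow, ← pow_mul, ← pow_mul, ← pow_mul, mul_comm (2 * m) n, mul_comm (2 * m) (n + 1)]
      rw [e1]
      have e2 := pow_le_pow_left₀ (by positivity) hr (2 * m)
      refine e2.trans (le_of_eq ?_)
      rw [pow_mul]
      norm_num
    calc (4 : ℝ) ^ m * ((n.factorial : ℝ) * (L : ℝ) ^ n * conv m n Real.pi)
        ≤ (4 : ℝ) ^ m * ((n.factorial : ℝ) * ((K : ℝ) ^ (2 * m)) ^ n *
          (Real.pi ^ n * (Real.pi / (n + 1)) ^ (2 * m * (n + 1)))) := by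
          refine mul_le_mul_of_nonneg_left ?_ (by positivity)
          refine mul_le_mul (mul_le_mul_of_nonneg_left hLn (by positivity)) (h2 m n) hc0.le
            (by positivity)
      _ = (4 : ℝ) ^ m * (n.factorial : ℝ) * Real.pi ^ n *
          (((K : ℝ) ^ (2 * m)) ^ n * (Real.pi / (n + 1)) ^ (2 * m * (n + 1))) := by ring
      _ ≤ (4 : ℝ) ^ m * (n.factorial : ℝ) * 4 ^ n * (1 / 4) ^ m := by
          refine mul_le_mul (mul_le_mul_of_nonneg_left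
            (pow_le_pow_left₀ Real.pi_pos.le hpi4 n) (by positivity)) hr' ?_ (by positivity)
          have := Real.pi_pos
          positivity
      _ = (n.factorial : ℝ) * 4 ^ n * ((4 : ℝ) ^ m * (1 / 4) ^ m) := by ring
      _ = (n.factorial : ℝ) * 4 ^ n := by
          rw [← mul_pow]
          norm_num
      _ = _ := by push_cast; ring
  · rw [← ht1]
    have e1 : (1 : ℝ) / 4 ^ n ≤ Real.pi / 4 ^ n := by
      refine div_le_div_of_nonneg_right ?_ (by positivity)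
      linarith
    have e2 : (1 : ℝ) / 4 ^ n ≤ 2 / 4 ^ n := by
      refine div_le_div_of_nonneg_right ?_ (by positivity)
      norm_num
    have e3 : ((1 : ℝ) / 4 ^ n) ^ n * (1 / 4 ^ n) ^ (2 * m * (n + 1)) ≤ conv m n Real.pi := by
      refine le_trans ?_ hge
      refine mul_le_mul (pow_le_pow_left₀ (by positivity) e1 _)
        (pow_le_pow_left₀ (by positivity) e2 _) (by positivity) ?_
      have := Real.pi_pos
      positivity
    have e4 : conv m n Real.pi ≤ (n.factorial : ℝ) * (L : ℝ) ^ n * conv m n Real.pi :=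
      le_mul_of_one_le_left hc0.le (one_le_mul_of_one_le_of_one_le hf1 hLn1)
    have e5 := mul_le_mul_of_nonneg_left (e3.trans e4)
      (by positivity : (0 : ℝ) ≤ ((((4 ^ n) ^ n : ℕ) : ℝ)) * ((((4 ^ n) ^ (2 * (n + 1)) : ℕ) : ℝ)) ^ m)
    refine le_trans (le_of_eq ?_) e5
    push_cast
    rw [div_pow, div_pow, one_pow, one_pow, ← pow_mul (((4 : ℝ) ^ n)) (2 * (n + 1)) m]
    have e6 : 2 * m * (n + 1) = 2 * (n + 1) * m := by ring
    rw [e6]
    field_simp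
  · refine ht2.trans ?_
    push_cast
    calc (n.factorial : ℝ) * (L : ℝ) ^ n * (((4 : ℝ) ^ m) ^ (n + 1) * ((n + 1).factorial : ℝ))
        ≤ (n.factorial : ℝ) * ((K : ℝ) ^ (2 * m)) ^ n *
          (((4 : ℝ) ^ m) ^ (n + 1) * ((n + 1).factorial : ℝ)) := by
          refine mul_le_mul_of_nonneg_right (mul_le_mul_of_nonneg_left hLn (by positivity))
            (by positivity)
      _ = _ := by
          rw [mul_pow, ← pow_mul, ← pow_mul, ← pow_mul, ← pow_mul]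
          have e1 : 2 * m * n = 2 * n * m := by ring
          have e2 : m * (n + 1) = (n + 1) * m := by ring
          rw [e1, e2]
          ring

end Pool.Agent.Lib_helper53.PIX
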